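import Pool.Agent.H53.GC.Targets

/-!
MP_6ab439_lc, board bpg_modules, row UNI.
-/

set_option autoImplicit false

namespace Pool.Agent.H19.BPG

open Pool.Agent.H53.GC Pool.Agent.H68.BP Pool.Agent.H58.SF

theorem pf_UNI : T_UNI := by
  intro V X _ c fr M hU W _ _ d hd
  classical
  have : Fintype W := Fintype.ofFinite W
  let e : Fin (Fintype.card W) ≃o W := Fintype.orderIsoFinOfCardEq W rfl
  obtain ⟨f, hf, hc⟩ := hU (Fintype.card W) (fun i j => d (e i) (e j)) (by
    intro m s hm hs hfr
    exact hd m (fun i => e (s i)) hm (e.strictMono.comp hs) hfr)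
  refine ⟨fun w => f (e.symm w), hf.comp e.symm.strictMono, fun i j hij => ?_⟩
  have h := hc (e.symm i) (e.symm j) (e.symm.monotone hij)
  simpa using h

end Pool.Agent.H19.BPG
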