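import Pool.Agent.H53.GC.Targets

/-!
MP_6ab439_lc, board bpg_modules, row EX: independence of the order `r`.
-/

set_option autoImplicit false

namespace Pool.Agent.H19.BPG

open Pool.Agent.H53.GC Pool.Agent.H68.BP Pool.Agent.H58.SF

namespace EX

/-- a position of the first letter -/
def px (r : Fin 3) : Fin 6 := ![0, 0, 1] r

/-- a position of the second letter -/
def py (r : Fin 3) : Fin 6 := ![2, 1, 0] r

theorem kS_px (r : Fin 3) : kS r (px r) = 0 := by
  fin_cases r <;> rfl

theorem kS_py (r : Fin 3) : kS r (py r) = 1 := by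
  fin_cases r <;> rfl

theorem kS_cases (r : Fin 3) (l : Fin 6) : kS r l = 0 ∨ kS r l = 1 := by
  revert r l
  decide

theorem pat_if {Y : Type} (r : Fin 3) (x y : Y) (l : Fin 6) :
    pat r x y l = if kS r l = 0 then x else y := by
  fin_cases r <;> fin_cases l <;> rfl

theorem pat_x {Y : Type} {r : Fin 3} {l : Fin 6} (x y : Y) (h : kS r l = 0) :
    pat r x y l = x := by
  rw [pat_if, if_pos h]

theorem pat_y {Y : Type} {r : Fin 3} {l : Fin 6} (x y : Y) (h : kS r l = 1) :
    pat r x y l = y := by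
  rw [pat_if, if_neg]
  rw [h]
  decide

theorem pat_comp {Y Z : Type} (r : Fin 3) (g : Y → Z) (x y : Y) :
    g ∘ pat r x y = pat r (g x) (g y) :=
  funext fun l => pat_map g r x y l

theorem pat_self {Y : Type} (r : Fin 3) (x : Y) : pat r x x = fun _ => x := by
  funext l
  rw [pat_if, ite_self]

section

variable {V X : Type} [LinearOrder V] {c : V → V → X}

/-- the ascending tuples with given colours -/
def Rz (c : V → V → X) {k : ℕ} (T : Fin k → Fin k → X) (g : Fin k → V) : Prop :=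
  StrictMono g ∧ ∀ i j, i ≤ j → c (g i) (g j) = T i j

theorem Rz.same {k : ℕ} {T : Fin k → Fin k → X} {g g' : Fin k → V} (h : Rz c T g)
    (h' : Rz c T g') : SameType c g g' := fun i j =>
  ⟨h.1.lt_iff_lt.trans h'.1.lt_iff_lt.symm, fun hle =>
    (h.2 i j (h.1.le_iff_le.1 hle)).trans (h'.2 i j (h.1.le_iff_le.1 hle)).symm⟩

theorem typeInv_comp {h : (Fin 6 → V) → (Fin 6 → V) → X} (hT : TypeInv c h) {k : ℕ}
    {g g' : Fin k → V} (hs : SameType c g g') (u u' : Fin 6 → Fin k) :
    h (g ∘ u) (g ∘ u') = h (g' ∘ u) (g' ∘ u') := by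
  refine hT _ _ _ _ fun i j => ?_
  have e : ∀ (f : Fin k → V) (i : Fin 6 ⊕ Fin 6),
      Sum.elim (f ∘ u) (f ∘ u') i = f (Sum.elim u u' i) := by
    intro f i
    rcases i with i | i <;> rfl
  rw [e, e, e, e]
  exact hs _ _

theorem f1_eq {fr : X → X → X} {h : (Fin 6 → V) → (Fin 6 → V) → X} (hT : TypeInv c h) {k : ℕ}
    {T : Fin k → Fin k → X} {κ κ₀ : Fin 6 → Fin 6} {t t₀ : Fin 6 → X} {u u₀ : Fin 6 → Fin k}
    (h1 : ∀ v, Sh1 c fr κ t v ↔ ∃ g, Rz c T g ∧ v = g ∘ u)
    (h2 : ∀ v, Sh1 c fr κ₀ t₀ v ↔ ∃ g, Rz c T g ∧ v = g ∘ u₀)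
    (hh : ∀ g : Fin k → V, h (g ∘ u) (g ∘ u) = h (g ∘ u₀) (g ∘ u₀)) :
    f1 c fr h κ t = f1 c fr h κ₀ t₀ := by
  unfold f1
  by_cases hg : ∃ g, Rz c T g
  · obtain ⟨g, hg⟩ := hg
    have hv : ∃ v, Sh1 c fr κ t v := ⟨_, (h1 _).2 ⟨g, hg, rfl⟩⟩
    have hv₀ : ∃ v, Sh1 c fr κ₀ t₀ v := ⟨_, (h2 _).2 ⟨g, hg, rfl⟩⟩
    rw [dif_pos hv, dif_pos hv₀]
    obtain ⟨g₁, hg₁, e₁⟩ := (h1 _).1 hv.choose_spec
    obtain ⟨g₂, hg₂, e₂⟩ := (h2 _).1 hv₀.choose_spec
    rw [e₁, e₂, typeInv_comp hT (hg₁.same hg₂), hh]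
  · rw [dif_neg, dif_neg]
    · rintro ⟨v, hv⟩
      obtain ⟨g, hg', -⟩ := (h2 v).1 hv
      exact hg ⟨g, hg'⟩
    · rintro ⟨v, hv⟩
      obtain ⟨g, hg', -⟩ := (h1 v).1 hv
      exact hg ⟨g, hg'⟩

theorem f2_eq {fr : X → X → X} {L Rt : X → X} {h : (Fin 6 → V) → (Fin 6 → V) → X}
    (hT : TypeInv c h) {k : ℕ}
    {T : Fin k → Fin k → X} {κ κ' κ₀ κ₀' : Fin 6 → Fin 6} {w w₀ : Fin 6 → X}
    {u u' u₀ u₀' : Fin 6 → Fin k}
    (h1 : ∀ v v', Sh2 c fr L Rt κ κ' w v v' ↔ ∃ g, Rz c T g ∧ v = g ∘ u ∧ v' = g ∘ u')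
    (h2 : ∀ v v', Sh2 c fr L Rt κ₀ κ₀' w₀ v v' ↔ ∃ g, Rz c T g ∧ v = g ∘ u₀ ∧ v' = g ∘ u₀')
    (hh : ∀ g : Fin k → V, h (g ∘ u) (g ∘ u') = h (g ∘ u₀) (g ∘ u₀')) :
    f2 c fr L Rt h κ κ' w = f2 c fr L Rt h κ₀ κ₀' w₀ := by
  unfold f2
  by_cases hg : ∃ g, Rz c T g
  · obtain ⟨g, hg⟩ := hg
    have hv : ∃ z : (Fin 6 → V) × (Fin 6 → V), Sh2 c fr L Rt κ κ' w z.1 z.2 :=
      ⟨(g ∘ u, g ∘ u'), (h1 _ _).2 ⟨g, hg, rfl, rfl⟩⟩
    have hv₀ : ∃ z : (Fin 6 → V) × (Fin 6 → V), Sh2 c fr L Rt κ₀ κ₀' w₀ z.1 z.2 :=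
      ⟨(g ∘ u₀, g ∘ u₀'), (h2 _ _).2 ⟨g, hg, rfl, rfl⟩⟩
    rw [dif_pos hv, dif_pos hv₀]
    obtain ⟨g₁, hg₁, e₁, e₁'⟩ := (h1 _ _).1 hv.choose_spec
    obtain ⟨g₂, hg₂, e₂, e₂'⟩ := (h2 _ _).1 hv₀.choose_spec
    rw [e₁, e₁', e₂, e₂', typeInv_comp hT (hg₁.same hg₂), hh]
  · rw [dif_neg, dif_neg]
    · rintro ⟨v, hv⟩
      obtain ⟨g, hg', -⟩ := (h2 _ _).1 hv
      exact hg ⟨g, hg'⟩
    · rintro ⟨v, hv⟩
      obtain ⟨g, hg', -⟩ := (h1 _ _).1 hv
      exact hg ⟨g, hg'⟩

/-- blocks of the shape `kS r` -/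
theorem sh1_iff {fr : X → X → X} (r : Fin 3) (s t : X) (v : Fin 6 → V) :
    Sh1 c fr (kS r) (pat r s t) v ↔ ∃ x y, x < y ∧ c x x = s ∧ c y y = t ∧ c x y = fr s t ∧
      v = pat r x y := by
  constructor
  · rintro ⟨h1, h2, h3⟩
    have he : ∀ l l', kS r l = kS r l' → v l = v l' := by
      intro l l' hl
      refine le_antisymm ?_ ?_
      · rw [← not_lt, h1, hl]
        exact lt_irrefl _
      · rw [← not_lt, h1, hl]
        exact lt_irrefl _
    have hlt : kS r (px r) < kS r (py r) := by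
      rw [kS_px, kS_py]
      decide
    refine ⟨v (px r), v (py r), (h1 _ _).2 hlt, ?_, ?_, ?_, ?_⟩
    · rw [h2, pat_x s t (kS_px r)]
    · rw [h2, pat_y s t (kS_py r)]
    · rw [h3 _ _ hlt, pat_x s t (kS_px r), pat_y s t (kS_py r)]
    · funext l
      rcases kS_cases r l with hl | hl
      · rw [pat_x _ _ hl]
        exact he _ _ (hl.trans (kS_px r).symm)
      · rw [pat_y _ _ hl]
        exact he _ _ (hl.trans (kS_py r).symm)
  · rintro ⟨x, y, hxy, hx, hy, hf, rfl⟩
    refine ⟨fun l l' => ?_, fun l => ?_, fun l l' h => ?_⟩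
    · rcases kS_cases r l with hl | hl <;> rcases kS_cases r l' with hl' | hl'
      · rw [pat_x _ _ hl, pat_x _ _ hl', hl, hl']
        simp
      · rw [pat_x _ _ hl, pat_y _ _ hl', hl, hl']
        exact iff_of_true hxy (by decide)
      · rw [pat_y _ _ hl, pat_x _ _ hl', hl, hl']
        exact iff_of_false hxy.asymm (by decide)
      · rw [pat_y _ _ hl, pat_y _ _ hl', hl, hl']
        simp
    · rcases kS_cases r l with hl | hl
      · rw [pat_x _ _ hl, pat_x _ _ hl, hx]
      · rw [pat_y _ _ hl, pat_y _ _ hl, hy]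
    · rcases kS_cases r l with hl | hl <;> rcases kS_cases r l' with hl' | hl' <;>
        rw [hl, hl'] at h
      · exact absurd h (lt_irrefl _)
      · rw [pat_x _ _ hl, pat_x _ _ hl, pat_y _ _ hl', pat_y _ _ hl', hf]
      · exact absurd h (by decide)
      · exact absurd h (lt_irrefl _)

/-- constant blocks -/
theorem sh1_const {fr : X → X → X} (t : Fin 6 → X) (s : X) (ht : ∀ l, t l = s) (v : Fin 6 → V) :
    Sh1 c fr (fun _ => 0) t v ↔ ∃ x, c x x = s ∧ v = fun _ => x := by
  constructor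
  · rintro ⟨h1, h2, -⟩
    refine ⟨v 0, (h2 0).trans (ht 0), funext fun l => le_antisymm ?_ ?_⟩
    · rw [← not_lt, h1]
      exact lt_irrefl _
    · rw [← not_lt, h1]
      exact lt_irrefl _
  · rintro ⟨x, hx, rfl⟩
    exact ⟨fun l l' => by simp, fun l => hx.trans (ht l).symm,
      fun l l' h => absurd h (lt_irrefl _)⟩

theorem fun_pat (f : X → X) (r : Fin 3) (a b : X) :
    (fun l => f (pat r a b l)) = pat r (f a) (f b) :=
  pat_comp r f a b

end

end EX

open EX

theorem pf_EX : Pool.Agent.H53.GC.T_EX := by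
  intro σ V X _ 𝔸 M c fr L Rt h hG hT r a b
  have hne : (0 : Fin 6) ≠ 1 := by decide
  refine ⟨?_, ?_, fun hL => ?_, fun hR => ?_⟩
  · -- one block
    have key : ∀ r : Fin 3, ∀ v, Sh1 c fr (kS r) (pat r a b) v ↔
        ∃ g : Fin 2 → V, Rz c ![![a, fr a b], ![a, b]] g ∧ v = g ∘ pat r 0 1 := by
      intro r v
      rw [sh1_iff]
      constructor
      · rintro ⟨x, y, hxy, hx, hy, hf, rfl⟩
        refine ⟨![x, y], ⟨?_, ?_⟩, ?_⟩
        · intro i j hij
          fin_cases i <;> fin_cases j <;> simp_all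
        · intro i j hij
          fin_cases i <;> fin_cases j <;> simp_all
        · rw [pat_comp]
          rfl
      · rintro ⟨g, ⟨hg, hc⟩, rfl⟩
        refine ⟨g 0, g 1, hg (by decide), ?_, ?_, ?_, pat_comp r g 0 1⟩
        · exact hc 0 0 le_rfl
        · exact hc 1 1 le_rfl
        · exact hc 0 1 (by decide)
    refine f1_eq hT (key r) (key 0) fun g => ?_
    rw [pat_comp, pat_comp]
    exact hG.exact r _ _ _ _
  · -- two blocks
    have key : ∀ r : Fin 3, ∀ v v', Sh2 c fr L Rt (kS r) (kS r) (pat r a b) v v' ↔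
        ∃ g : Fin 4 → V, Rz c ![![L a, fr (L a) (L b), a, fr (L a) (Rt b)],
          ![a, L b, fr (L b) (Rt a), b], ![a, a, Rt a, fr (Rt a) (Rt b)],
          ![a, a, a, Rt b]] g ∧ v = g ∘ pat r 0 1 ∧ v' = g ∘ pat r 2 3 := by
      intro r v v'
      unfold Sh2
      rw [fun_pat, fun_pat, sh1_iff, sh1_iff]
      constructor
      · rintro ⟨⟨x, y, hxy, hx, hy, hf, rfl⟩, ⟨x', y', hxy', hx', hy', hf', rfl⟩, hlt, hcr⟩
        have h1 := hcr (px r) (px r)
        have h2 := hcr (py r) (py r)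
        have h3 := hcr (px r) (py r)
        have h4 := hcr (py r) (px r)
        have l1 := hlt (py r) (px r)
        rw [pat_x _ _ (kS_px r), pat_y _ _ (kS_py r)] at l1
        have e1 := h1.1 (px r) rfl rfl
        have e2 := h2.1 (py r) rfl rfl
        have e3 := h3.2 (by
          rintro m ⟨q1, q2⟩
          rw [kS_px] at q1
          rw [kS_py, q1] at q2
          exact hne q2)
        have e4 := h4.2 (by
          rintro m ⟨q1, q2⟩
          rw [kS_py] at q1
          rw [kS_px, q1] at q2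
          exact hne q2.symm)
        simp only [pat_x _ _ (kS_px r), pat_y _ _ (kS_py r)] at e1 e2 e3 e4
        refine ⟨![x, y, x', y'], ⟨?_, ?_⟩, ?_, ?_⟩
        · rw [Fin.strictMono_iff_lt_succ]
          intro i
          fin_cases i
          · exact hxy
          · exact l1
          · exact hxy'
        · intro i j hij
          fin_cases i <;> fin_cases j <;>
            first
            | exact hx
            | exact hy
            | exact hf
            | exact hx'
            | exact hy'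
            | exact hf'
            | exact e1
            | exact e2
            | exact e3
            | exact e4
            | exact absurd hij (by decide)
        · rw [pat_comp]
          rfl
        · rw [pat_comp]
          rfl
      · rintro ⟨g, ⟨hg, hc⟩, rfl, rfl⟩
        rw [pat_comp, pat_comp]
        refine ⟨⟨g 0, g 1, hg (by decide), hc 0 0 le_rfl, hc 1 1 le_rfl, hc 0 1 (by decide), rfl⟩,
          ⟨g 2, g 3, hg (by decide), hc 2 2 le_rfl, hc 3 3 le_rfl, hc 2 3 (by decide), rfl⟩,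
          fun l l' => ?_, fun l l' => ⟨fun m q1 q2 => ?_, fun hm => ?_⟩⟩
        · rcases kS_cases r l with hl | hl <;> rcases kS_cases r l' with hl' | hl'
          · rw [pat_x _ _ hl, pat_x _ _ hl']
            exact hg (by decide)
          · rw [pat_x _ _ hl, pat_y _ _ hl']
            exact hg (by decide)
          · rw [pat_y _ _ hl, pat_x _ _ hl']
            exact hg (by decide)
          · rw [pat_y _ _ hl, pat_y _ _ hl']
            exact hg (by decide)
        · rcases kS_cases r m with hm | hm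
          · rw [pat_x _ _ (q1.symm.trans hm), pat_x _ _ (q2.symm.trans hm), pat_x _ _ hm]
            exact hc 0 2 (by decide)
          · rw [pat_y _ _ (q1.symm.trans hm), pat_y _ _ (q2.symm.trans hm), pat_y _ _ hm]
            exact hc 1 3 (by decide)
        · rcases kS_cases r l with hl | hl <;> rcases kS_cases r l' with hl' | hl'
          · exact absurd ⟨rfl, hl.trans hl'.symm⟩ (hm l)
          · rw [pat_x _ _ hl, pat_y _ _ hl', pat_x _ _ hl, pat_y _ _ hl']
            exact hc 0 3 (by decide)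
          · rw [pat_y _ _ hl, pat_x _ _ hl', pat_y _ _ hl, pat_x _ _ hl']
            exact hc 1 2 (by decide)
          · exact absurd ⟨rfl, hl.trans hl'.symm⟩ (hm l)
    refine f2_eq hT (key r) (key 0) fun g => ?_
    rw [pat_comp, pat_comp, pat_comp, pat_comp]
    exact hG.exact r _ _ _ _
  · -- the first block is constant
    have key : ∀ r : Fin 3, ∀ v v', Sh2 c fr L Rt (fun _ => 0) (kS r) (pat r a b) v v' ↔
        ∃ g : Fin 3 → V, Rz c ![![L a, a, b], ![a, Rt a, fr (Rt a) (Rt b)],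
          ![a, a, Rt b]] g ∧ v = g ∘ pat r 0 0 ∧ v' = g ∘ pat r 1 2 := by
      intro r v v'
      unfold Sh2
      rw [fun_pat, fun_pat, sh1_iff, sh1_const _ (L a) (by
        intro l
        rw [← hL, pat_self])]
      constructor
      · rintro ⟨⟨x, hx, rfl⟩, ⟨x', y', hxy', hx', hy', hf', rfl⟩, hlt, hcr⟩
        have l1 := hlt (px r) (px r)
        have e1 := (hcr (px r) (px r)).1 (px r) rfl rfl
        have e2 := (hcr (py r) (py r)).1 (py r) rfl rfl
        simp only [pat_x _ _ (kS_px r), pat_y _ _ (kS_py r)] at e1 e2 l1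
        refine ⟨![x, x', y'], ⟨?_, ?_⟩, ?_, ?_⟩
        · rw [Fin.strictMono_iff_lt_succ]
          intro i
          fin_cases i
          · exact l1
          · exact hxy'
        · intro i j hij
          fin_cases i <;> fin_cases j <;>
            first
            | exact hx
            | exact hx'
            | exact hy'
            | exact hf'
            | exact e1
            | exact e2
            | exact absurd hij (by decide)
        · rw [pat_comp, pat_self]
          rfl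
        · rw [pat_comp]
          rfl
      · rintro ⟨g, ⟨hg, hc⟩, rfl, rfl⟩
        rw [pat_comp, pat_comp, pat_self]
        refine ⟨⟨g 0, hc 0 0 le_rfl, rfl⟩,
          ⟨g 1, g 2, hg (by decide), hc 1 1 le_rfl, hc 2 2 le_rfl, hc 1 2 (by decide), rfl⟩,
          fun l l' => ?_, fun l l' => ⟨fun m _ q2 => ?_, fun hm => ?_⟩⟩
        · rcases kS_cases r l' with hl' | hl'
          · rw [pat_x _ _ hl']
            exact hg (by decide)
          · rw [pat_y _ _ hl']
            exact hg (by decide)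
        · rcases kS_cases r m with hm | hm
          · rw [pat_x _ _ (q2.symm.trans hm), pat_x _ _ hm]
            exact hc 0 1 (by decide)
          · rw [pat_y _ _ (q2.symm.trans hm), pat_y _ _ hm]
            exact hc 0 2 (by decide)
        · exact absurd ⟨rfl, rfl⟩ (hm l')
    refine f2_eq hT (key r) (key 0) fun g => ?_
    rw [pat_comp, pat_comp, pat_comp, pat_comp]
    exact hG.exact r _ _ _ _
  · -- the second block is constant
    have key : ∀ r : Fin 3, ∀ v v', Sh2 c fr L Rt (kS r) (fun _ => 0) (pat r a b) v v' ↔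
        ∃ g : Fin 3 → V, Rz c ![![L a, fr (L a) (L b), a], ![a, L b, b],
          ![a, a, Rt a]] g ∧ v = g ∘ pat r 0 1 ∧ v' = g ∘ pat r 2 2 := by
      intro r v v'
      unfold Sh2
      rw [fun_pat, fun_pat, sh1_iff, sh1_const _ (Rt a) (by
        intro l
        rw [← hR, pat_self])]
      constructor
      · rintro ⟨⟨x, y, hxy, hx, hy, hf, rfl⟩, ⟨x', hx', rfl⟩, hlt, hcr⟩
        have l1 := hlt (py r) (py r)
        have e1 := (hcr (px r) (px r)).1 (px r) rfl rfl
        have e2 := (hcr (py r) (py r)).1 (py r) rfl rfl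
        simp only [pat_x _ _ (kS_px r), pat_y _ _ (kS_py r)] at e1 e2 l1
        refine ⟨![x, y, x'], ⟨?_, ?_⟩, ?_, ?_⟩
        · rw [Fin.strictMono_iff_lt_succ]
          intro i
          fin_cases i
          · exact hxy
          · exact l1
        · intro i j hij
          fin_cases i <;> fin_cases j <;>
            first
            | exact hx
            | exact hx'
            | exact hy
            | exact hf
            | exact e1
            | exact e2
            | exact absurd hij (by decide)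
        · rw [pat_comp]
          rfl
        · rw [pat_comp, pat_self]
          rfl
      · rintro ⟨g, ⟨hg, hc⟩, rfl, rfl⟩
        rw [pat_comp, pat_comp, pat_self]
        refine ⟨⟨g 0, g 1, hg (by decide), hc 0 0 le_rfl, hc 1 1 le_rfl, hc 0 1 (by decide), rfl⟩,
          ⟨g 2, hc 2 2 le_rfl, rfl⟩,
          fun l l' => ?_, fun l l' => ⟨fun m q1 _ => ?_, fun hm => ?_⟩⟩
        · rcases kS_cases r l with hl | hl
          · rw [pat_x _ _ hl]
            exact hg (by decide)
          · rw [pat_y _ _ hl]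
            exact hg (by decide)
        · rcases kS_cases r m with hm | hm
          · rw [pat_x _ _ (q1.symm.trans hm), pat_x _ _ hm]
            exact hc 0 2 (by decide)
          · rw [pat_y _ _ (q1.symm.trans hm), pat_y _ _ hm]
            exact hc 1 2 (by decide)
        · exact absurd ⟨rfl, rfl⟩ (hm l)
    refine f2_eq hT (key r) (key 0) fun g => ?_
    rw [pat_comp, pat_comp, pat_comp, pat_comp]
    exact hG.exact r _ _ _ _

end Pool.Agent.H19.BPG
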