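import Pool.Agent.H53.GC.Targets

/-!
MP_6ab439_lc, board bpg_modules, row NRM: the normalization of a family.
-/

set_option autoImplicit false

namespace Pool.Agent.H19.BPG

open Pool.Agent.H53.GC Pool.Agent.H68.BP Pool.Agent.H58.SF

private theorem iter_fac {X : Type} [Finite X] {s : Set X} {g : X → X} (h : Set.BijOn g s s)
    {x : X} (hx : x ∈ s) : g^[(Nat.card X).factorial] x = x := by
  classical
  let σ : Equiv.Perm s := h.equiv g
  have hσ : ∀ y : s, ((σ y : s) : X) = g y := fun _ => rfl
  have hit : ∀ (n : ℕ) (y : s), (((σ ^ n) y : s) : X) = g^[n] y := by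
    intro n
    induction n with
    | zero => intro y; rfl
    | succ n ih =>
      intro y
      rw [pow_succ', Equiv.Perm.mul_apply, hσ, ih, Function.iterate_succ_apply']
  have h1 : σ ^ (Nat.card s).factorial = 1 := by
    rw [← Nat.card_perm]
    exact pow_card_eq_one'
  have h2 : σ ^ (Nat.card X).factorial = 1 := by
    have h3 : (Nat.card s).factorial ∣ (Nat.card X).factorial :=
      Nat.factorial_dvd_factorial (Finite.card_subtype_le _)
    obtain ⟨k, hk⟩ := h3
    rw [hk, pow_mul, h1, one_pow]
  have h4 := hit (Nat.card X).factorial ⟨x, hx⟩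
  rw [h2] at h4
  exact h4.symm

theorem pf_NRM : T_NRM := by
  intro 𝓔 X 𝓛 _ R ρ hρ I F hF
  have hδ : Fam1 R (fun e x => ρ e (F e (fun _ => ρ e x))) := by
    intro l p hp
    exact hρ.fam l _ (hF l (fun _ e => ρ e (p e)) fun _ => hρ.fam l p hp)
  have hφ : Fam1 R (fun e x => F e (fun _ => x)) := by
    intro l p hp
    exact hF l (fun _ e => p e) fun _ => hp
  have hr : ∀ e x, x ∈ Set.range (ρ e) → ρ e x = x := by
    rintro e _ ⟨y, rfl⟩
    exact hρ.idem e y
  have hit : ∀ n : ℕ, Fam1 R (fun e => (fun x => ρ e (F e (fun _ => ρ e x)))^[n]) := by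
    intro n
    induction n with
    | zero => exact fun l p hp => hp
    | succ n ih =>
      intro l p hp
      have h1 := hδ l _ (ih l p hp)
      simp only [Function.iterate_succ_apply']
      exact h1
  have hrange : ∀ e (n : ℕ) x, x ∈ Set.range (ρ e) →
      (fun x => ρ e (F e (fun _ => ρ e x)))^[n] x ∈ Set.range (ρ e) := by
    intro e n
    induction n with
    | zero => exact fun x hx => hx
    | succ n ih =>
      intro x hx
      rw [Function.iterate_succ_apply']
      exact ⟨_, rfl⟩
  refine ⟨?_, ?_, ?_, ?_⟩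
  · intro l p hp
    have h1 : R l (fun e => ρ e (F e (fun i => ρ e (p i e)))) :=
      hρ.fam l _ (hF l (fun i e => ρ e (p i e)) fun i => hρ.fam l _ (hp i))
    exact hit _ l _ h1
  · intro e w
    exact hr e _ (hrange e _ _ ⟨_, rfl⟩)
  · intro e w
    simp only [nrm, hρ.idem]
  · intro e t
    set δ : X → X := fun x => ρ e (F e (fun _ => ρ e x)) with hδdef
    have h0 : nrm (ρ e) (F e) (fun _ => t) = δ^[(Nat.card X).factorial - 1] (δ t) := rfl
    have h1 : δ t = δ (ρ e t) := by
      simp only [hδdef, hρ.idem]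
    rw [h0, h1, ← Function.iterate_succ_apply]
    have h2 : (Nat.card X).factorial - 1 + 1 = (Nat.card X).factorial :=
      Nat.succ_pred_eq_of_pos (Nat.factorial_pos _)
    rw [Nat.succ_eq_add_one, h2]
    have h3 : Set.BijOn δ (Set.range (ρ e)) (Set.range (ρ e)) := by
      refine (hρ.bij _ hφ e).congr ?_
      intro x hx
      simp only [hδdef, hr e x hx]
    exact iter_fac h3 ⟨t, rfl⟩

end Pool.Agent.H19.BPG
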